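import Mathlib

/-!
The nine-vertex ring of `MP_b998f6_co.TwinRing`: a ring of three cells `a_i, b_i, c_i` (`i` modulo 3).
The edge `a_i c_i` has the two labels 1 and 4, the edge `b_i a_{i+1}` has the label 2 and the edge
`b_i c_i` has the label 3.
-/

namespace Pool.Agent.Q52.TR

/-- There is a non-strict temporal path from `u` to `v`: vertices `u = p 0, p 1, …, p k = v` and
times `t 0 ≤ t 1 ≤ … ≤ t (k-1)` with `t i` a label of the step from `p i` to `p (i+1)`. -/
def Reach {V : Type*} (lab : V → V → Finset ℕ) (u v : V) : Prop :=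
  ∃ (k : ℕ) (p : ℕ → V) (t : ℕ → ℕ), p 0 = u ∧ p k = v ∧
    (∀ i, i < k → t i ∈ lab (p i) (p (i + 1))) ∧ (∀ i, i + 1 < k → t i ≤ t (i + 1))

section general

variable {V : Type*} {lab : V → V → Finset ℕ}

lemma mono_of_steps {k : ℕ} {t : ℕ → ℕ} (h : ∀ i, i + 1 < k → t i ≤ t (i + 1)) :
    ∀ i j, i ≤ j → j < k → t i ≤ t j := by
  intro i j hij
  induction j, hij using Nat.le_induction with
  | base => intro _; exact le_rfl
  | succ n hn ih => intro hk; exact (ih (by omega)).trans (h n hk)

lemma reach_one {u v : V} {s : ℕ} (h : s ∈ lab u v) : Reach lab u v := by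
  refine ⟨1, fun i => if i = 0 then u else v, fun _ => s, by simp, by simp, ?_, ?_⟩
  · intro i hi
    have : i = 0 := by omega
    subst this
    simpa using h
  · intro i hi; exact le_rfl

lemma reach_two {u v w : V} {s s' : ℕ} (h : s ∈ lab u v) (h' : s' ∈ lab v w) (hs : s ≤ s') :
    Reach lab u w := by
  refine ⟨2, fun i => if i = 0 then u else if i = 1 then v else w,
    fun i => if i = 0 then s else s', by simp, by simp, ?_, ?_⟩
  · intro i hi
    interval_cases i
    · simpa using h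
    · simpa using h'
  · intro i hi
    have : i = 0 := by omega
    subst this
    simpa using hs

lemma reach_three {u v w x : V} {s s' s'' : ℕ} (h : s ∈ lab u v) (h' : s' ∈ lab v w)
    (h'' : s'' ∈ lab w x) (hs : s ≤ s') (hs' : s' ≤ s'') : Reach lab u x := by
  refine ⟨3, fun i => if i = 0 then u else if i = 1 then v else if i = 2 then w else x,
    fun i => if i = 0 then s else if i = 1 then s' else s'', by simp, by simp, ?_, ?_⟩
  · intro i hi
    interval_cases i
    · simpa using h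
    · simpa using h'
    · simpa using h''
  · intro i hi
    have : i = 0 ∨ i = 1 := by omega
    rcases this with rfl | rfl
    · simpa using hs
    · simpa using hs'

/-- Adding one more step to a temporal path all of whose labels are at most `s`. -/
def ReachBy (lab : V → V → Finset ℕ) (s : ℕ) (u v : V) : Prop :=
  ∃ (k : ℕ) (p : ℕ → V) (t : ℕ → ℕ), p 0 = u ∧ p k = v ∧
    (∀ i, i < k → t i ∈ lab (p i) (p (i + 1))) ∧ (∀ i, i + 1 < k → t i ≤ t (i + 1)) ∧
    (∀ i, i < k → t i ≤ s)

lemma ReachBy.refl (s : ℕ) (u : V) : ReachBy lab s u u :=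
  ⟨0, fun _ => u, fun _ => 0, rfl, rfl, fun i hi => absurd hi (by omega),
    fun i hi => absurd hi (by omega), fun i hi => absurd hi (by omega)⟩

lemma ReachBy.mono {s s' : ℕ} {u v : V} (h : ReachBy lab s u v) (hs : s ≤ s') :
    ReachBy lab s' u v := by
  obtain ⟨k, p, t, h0, h1, h2, h3, h4⟩ := h
  exact ⟨k, p, t, h0, h1, h2, h3, fun i hi => (h4 i hi).trans hs⟩

lemma ReachBy.step {s s' : ℕ} {u v w : V} (h : ReachBy lab s u v) (hs : s ≤ s')
    (hl : s' ∈ lab v w) : ReachBy lab s' u w := by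
  obtain ⟨k, p, t, h0, h1, h2, h3, h4⟩ := h
  refine ⟨k + 1, fun i => if i ≤ k then p i else w, fun i => if i < k then t i else s',
    by simp [h0], by simp, ?_, ?_, ?_⟩
  · intro i hi
    by_cases hik : i < k
    · have e1 : i ≤ k := by omega
      have e2 : i + 1 ≤ k := by omega
      simpa [hik, e1, e2] using h2 i hik
    · have e0 : i = k := by omega
      subst e0
      simpa [h1] using hl
  · intro i hi
    have hik : i < k := by omega
    by_cases hik' : i + 1 < k
    · simpa [hik, hik'] using h3 i hik'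
    · simpa [hik, hik'] using (h4 i hik).trans hs
  · intro i hi
    by_cases hik : i < k
    · simpa [hik] using (h4 i hik).trans hs
    · simp [hik]

lemma ReachBy.reach {s : ℕ} {u v : V} (h : ReachBy lab s u v) : Reach lab u v := by
  obtain ⟨k, p, t, h0, h1, h2, h3, _⟩ := h
  exact ⟨k, p, t, h0, h1, h2, h3⟩

lemma reach_prefix {k : ℕ} {p : ℕ → V} {t : ℕ → ℕ}
    (h2 : ∀ i, i < k → t i ∈ lab (p i) (p (i + 1))) (h3 : ∀ i, i + 1 < k → t i ≤ t (i + 1))
    (j : ℕ) (hj : j ≤ k) : Reach lab (p 0) (p j) :=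
  ⟨j, p, t, rfl, rfl, fun i hi => h2 i (by omega), fun i hi => h3 i (by omega)⟩

lemma reach_suffix {k : ℕ} {p : ℕ → V} {t : ℕ → ℕ}
    (h2 : ∀ i, i < k → t i ∈ lab (p i) (p (i + 1))) (h3 : ∀ i, i + 1 < k → t i ≤ t (i + 1))
    (j : ℕ) (hj : j ≤ k) : Reach lab (p j) (p k) := by
  refine ⟨k - j, fun i => p (i + j), fun i => t (i + j), by simp, by simp [Nat.sub_add_cancel hj],
    ?_, ?_⟩
  · intro i hi
    have := h2 (i + j) (by omega)
    have e : i + j + 1 = i + 1 + j := by omega
    rw [e] at this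
    exact this
  · intro i hi
    have := h3 (i + j) (by omega)
    have e : i + j + 1 = i + 1 + j := by omega
    rw [e] at this
    exact this

/-- If every vertex between `s` and `y` is one of `s, x, y`, then `s` reaches `y` by the arc
`(s, y)` or by the path `s, x, y`. -/
lemma between {s x y : V} (hsy : s ≠ y) (hr : Reach lab s y)
    (hb : ∀ w, Reach lab s w → Reach lab w y → w = s ∨ w = x ∨ w = y) :
    (lab s y).Nonempty ∨ ∃ t1 ∈ lab s x, ∃ t2 ∈ lab x y, t1 ≤ t2 := by
  classical
  obtain ⟨k, p, t, h0, h1, h2, h3⟩ := hr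
  have hmem : ∀ j, j ≤ k → p j = s ∨ p j = x ∨ p j = y := by
    intro j hj
    refine hb (p j) ?_ ?_
    · have := reach_prefix h2 h3 j hj
      rwa [h0] at this
    · have := reach_suffix h2 h3 j hj
      rwa [h1] at this
  by_cases hxs : x = s
  · -- the first step into y
    left
    have hex : ∃ j, p j = y := ⟨k, h1⟩
    set m := Nat.find hex with hm
    have hmk : m ≤ k := Nat.find_min' hex h1
    have hpm : p m = y := Nat.find_spec hex
    have hm0 : m ≠ 0 := by
      intro h
      rw [h] at hpm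
      exact hsy (h0.symm.trans hpm)
    have hprev : p (m - 1) ≠ y := Nat.find_min hex (by omega)
    have hl := h2 (m - 1) (by omega)
    have e : m - 1 + 1 = m := by omega
    rw [e, hpm] at hl
    rcases hmem (m - 1) (by omega) with h | h | h
    · rw [h] at hl; exact ⟨_, hl⟩
    · rw [h, hxs] at hl; exact ⟨_, hl⟩
    · exact absurd h hprev
  · have hex : ∃ j, p j = y := ⟨k, h1⟩
    set m := Nat.find hex with hm
    have hmk : m ≤ k := Nat.find_min' hex h1
    have hpm : p m = y := Nat.find_spec hex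
    have hm0 : m ≠ 0 := by
      intro h
      rw [h] at hpm
      exact hsy (h0.symm.trans hpm)
    have hprev : ∀ j, j < m → p j ≠ y := fun j hj => Nat.find_min hex hj
    have hl := h2 (m - 1) (by omega)
    have e : m - 1 + 1 = m := by omega
    rw [e, hpm] at hl
    rcases hmem (m - 1) (by omega) with h | h | h
    · left; rw [h] at hl; exact ⟨_, hl⟩
    · right
      have hex2 : ∃ j, p j = x := ⟨m - 1, h⟩
      set n := Nat.find hex2 with hn
      have hnm : n ≤ m - 1 := Nat.find_min' hex2 h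
      have hpn : p n = x := Nat.find_spec hex2
      have hn0 : n ≠ 0 := by
        intro h'
        rw [h'] at hpn
        exact hxs (hpn.symm.trans h0)
      have hprev2 : p (n - 1) ≠ x := Nat.find_min hex2 (by omega)
      have hl2 := h2 (n - 1) (by omega)
      have e2 : n - 1 + 1 = n := by omega
      rw [e2, hpn] at hl2
      rcases hmem (n - 1) (by omega) with h' | h' | h'
      · rw [h'] at hl2
        rw [h] at hl
        exact ⟨_, hl2, _, hl, mono_of_steps h3 _ _ (by omega) (by omega)⟩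
      · exact absurd h' hprev2
      · exact absurd h' (hprev _ (by omega))
    · exact absurd h (hprev _ (by omega))

/-- The key lemma on one cell. -/
lemma cell {a b c d : V} (hsimp : ∀ u v, (lab u v).card ≤ 1)
    (hab : a ≠ b) (hcb : c ≠ b) (hda : d ≠ a) (hdc : d ≠ c)
    (rda : Reach lab d a) (rdc : Reach lab d c) (rab : Reach lab a b) (rcb : Reach lab c b)
    (ndb : ¬ Reach lab d b)
    (bda : ∀ w, Reach lab d w → Reach lab w a → w = d ∨ w = c ∨ w = a)
    (bdc : ∀ w, Reach lab d w → Reach lab w c → w = d ∨ w = a ∨ w = c)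
    (bab : ∀ w, Reach lab a w → Reach lab w b → w = a ∨ w = c ∨ w = b)
    (bcb : ∀ w, Reach lab c w → Reach lab w b → w = c ∨ w = a ∨ w = b) :
    ∃ x, (x = a ∨ x = c) ∧ ∃ l1 ∈ lab d x, ∃ l2 ∈ lab x b, l2 < l1 := by
  have uniq : ∀ u v s s', s ∈ lab u v → s' ∈ lab u v → s = s' := fun u v s s' h h' =>
    Finset.card_le_one.1 (hsimp u v) s h s' h'
  have both : ∀ x, (lab d x).Nonempty → (lab x b).Nonempty →
      ∃ l1 ∈ lab d x, ∃ l2 ∈ lab x b, l2 < l1 := by
    rintro x ⟨l1, h1⟩ ⟨l2, h2⟩
    refine ⟨l1, h1, l2, h2, ?_⟩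
    by_contra hlt
    exact ndb (reach_two h1 h2 (by omega))
  by_cases h1 : (lab d a).Nonempty ∧ (lab a b).Nonempty
  · exact ⟨a, Or.inl rfl, both a h1.1 h1.2⟩
  by_cases h2 : (lab d c).Nonempty ∧ (lab c b).Nonempty
  · exact ⟨c, Or.inr rfl, both c h2.1 h2.2⟩
  exfalso
  by_cases hda' : (lab d a).Nonempty
  · have hab' : ¬ (lab a b).Nonempty := fun h => h1 ⟨hda', h⟩
    obtain ⟨t3, ht3, t4, ht4, h34⟩ := (between hab rab bab).resolve_left hab'
    have hdc' : ¬ (lab d c).Nonempty := fun h => h2 ⟨h, ⟨t4, ht4⟩⟩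
    obtain ⟨t1, ht1, t2, ht2, h12⟩ := (between hdc rdc bdc).resolve_left hdc'
    have e : t2 = t3 := uniq _ _ _ _ ht2 ht3
    subst e
    exact ndb (reach_three ht1 ht2 ht4 h12 h34)
  · obtain ⟨t1, ht1, t2, ht2, h12⟩ := (between hda rda bda).resolve_left hda'
    have hcb' : ¬ (lab c b).Nonempty := fun h => h2 ⟨⟨t1, ht1⟩, h⟩
    obtain ⟨t3, ht3, t4, ht4, h34⟩ := (between hcb rcb bcb).resolve_left hcb'
    have e : t2 = t3 := uniq _ _ _ _ ht2 ht3
    subst e
    exact ndb (reach_three ht1 ht2 ht4 h12 h34)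

end general

/-! ### The nine-vertex graph -/

/-- edges present at time `s`; the vertices are `a_i = 3i`, `b_i = 3i+1`, `c_i = 3i+2` -/
def edgeAt (s : ℕ) (u v : Fin 9) : Bool :=
  match s with
  | 1 => ((u.val, v.val) ∈ [(0, 2), (2, 0), (3, 5), (5, 3), (6, 8), (8, 6)])
  | 2 => ((u.val, v.val) ∈ [(1, 3), (3, 1), (4, 6), (6, 4), (7, 0), (0, 7)])
  | 3 => ((u.val, v.val) ∈ [(1, 2), (2, 1), (4, 5), (5, 4), (7, 8), (8, 7)])
  | 4 => ((u.val, v.val) ∈ [(0, 2), (2, 0), (3, 5), (5, 3), (6, 8), (8, 6)])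
  | _ => false

/-- the label sets -/
def lab9 (u v : Fin 9) : Finset ℕ := (Finset.range 5).filter fun s => edgeAt s u v = true

/-- bit masks of the vertices reached from `x` by time `s` -/
def maskTab (s : ℕ) : List ℕ :=
  match s with
  | 0 => [1, 2, 4, 8, 16, 32, 64, 128, 256]
  | 1 => [5, 2, 5, 40, 16, 40, 320, 128, 320]
  | 2 => [133, 10, 133, 42, 80, 42, 336, 129, 336]
  | 3 => [391, 14, 391, 62, 112, 62, 496, 385, 496]
  | _ => [455, 47, 455, 63, 376, 63, 504, 453, 504]

/-- `y` is reached from `x` by time `s` -/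
def inBy (s : ℕ) (x y : Fin 9) : Bool := ((maskTab s).getD x.val 0).testBit y.val

lemma inBy_closed : ∀ s : Fin 5, ∀ x u v : Fin 9, inBy s.val x u = true →
    edgeAt s.val u v = true → inBy s.val x v = true := by decide

lemma inBy_mono : ∀ s : Fin 4, ∀ x y : Fin 9, inBy s.val x y = true →
    inBy (s.val + 1) x y = true := by decide

lemma inBy_zero : ∀ x y : Fin 9, inBy 0 x y = true → x = y := by decide

lemma inBy_refl : ∀ s : Fin 5, ∀ x : Fin 9, inBy s.val x x = true := by decide

lemma inBy_step : ∀ s : Fin 4, ∀ x y : Fin 9, inBy (s.val + 1) x y = true →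
    inBy s.val x y = true ∨ ∃ u : Fin 9, inBy s.val x u = true ∧
      edgeAt (s.val + 1) u y = true := by decide

lemma mem_lab9 {s : ℕ} {u v : Fin 9} : s ∈ lab9 u v ↔ s < 5 ∧ edgeAt s u v = true := by
  simp [lab9]

lemma inBy_mono' (s s' : ℕ) (h : s ≤ s') (hs : s' < 5) (x y : Fin 9) (hi : inBy s x y = true) :
    inBy s' x y = true := by
  induction s', h using Nat.le_induction with
  | base => exact hi
  | succ n hn ih => exact inBy_mono ⟨n, by omega⟩ x y (ih (by omega))

lemma reachBy_of_inBy (s : ℕ) (hs : s < 5) : ∀ x y : Fin 9, inBy s x y = true →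
    ReachBy lab9 s x y := by
  induction s with
  | zero =>
    intro x y h
    rw [inBy_zero x y h]
    exact ReachBy.refl 0 y
  | succ n ih =>
    intro x y h
    rcases inBy_step ⟨n, by omega⟩ x y h with h' | ⟨u, hu, hl⟩
    · exact (ih (by omega) x y h').mono (by omega)
    · exact (ih (by omega) x u hu).step (by omega) (mem_lab9.2 ⟨hs, hl⟩)

lemma inBy_of_reach {x y : Fin 9} (h : Reach lab9 x y) : inBy 4 x y = true := by
  obtain ⟨k, p, t, h0, h1, h2, h3⟩ := h
  have key : ∀ j, j < k → inBy (t j) x (p (j + 1)) = true := by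
    intro j
    induction j with
    | zero =>
      intro hk
      obtain ⟨hs, he⟩ := mem_lab9.1 (h2 0 hk)
      rw [h0] at he
      exact inBy_closed ⟨t 0, hs⟩ x x _ (inBy_refl ⟨t 0, hs⟩ x) he
    | succ n ih =>
      intro hk
      obtain ⟨hs, he⟩ := mem_lab9.1 (h2 (n + 1) hk)
      have hm := inBy_mono' _ _ (h3 n hk) hs _ _ (ih (by omega))
      exact inBy_closed ⟨t (n + 1), hs⟩ x _ _ hm he
  rcases Nat.eq_zero_or_pos k with hk | hk
  · subst hk
    rw [← h0, ← h1]
    exact inBy_refl ⟨4, by norm_num⟩ _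
  · have hl := h2 (k - 1) (by omega)
    have hs := (mem_lab9.1 hl).1
    have := key (k - 1) (by omega)
    rw [Nat.sub_add_cancel hk, h1] at this
    exact inBy_mono' _ 4 (by omega) (by norm_num) _ _ this

lemma reach_iff {x y : Fin 9} : Reach lab9 x y ↔ inBy 4 x y = true :=
  ⟨inBy_of_reach, fun h => (reachBy_of_inBy 4 (by norm_num) x y h).reach⟩

/-- No simple label function on the nine vertices has the same reachability. -/
lemma no_lab (lab : Fin 9 → Fin 9 → Finset ℕ) (hsimp : ∀ u v, (lab u v).card ≤ 1)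
    (hr : ∀ u v, u ≠ v → (Reach lab u v ↔ inBy 4 u v = true)) : False := by
  -- the pairs of reachable vertices
  have hr' : ∀ u v, Reach lab u v → inBy 4 u v = true := by
    intro u v h
    by_cases huv : u = v
    · subst huv; exact inBy_refl ⟨4, by norm_num⟩ _
    · exact (hr u v huv).1 h
  have pos : ∀ u v, u ≠ v → inBy 4 u v = true → Reach lab u v := fun u v h h' => (hr u v h).2 h'
  have neg : ∀ u v, inBy 4 u v = false → ¬ Reach lab u v := by
    intro u v h h'
    have := hr' u v h'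
    rw [h] at this
    exact absurd this (by decide)
  have btw : ∀ s x y : Fin 9, (∀ w : Fin 9, inBy 4 s w = true → inBy 4 w y = true →
      w = s ∨ w = x ∨ w = y) → ∀ w, Reach lab s w → Reach lab w y → w = s ∨ w = x ∨ w = y :=
    fun s x y h w h1 h2 => h w (hr' _ _ h1) (hr' _ _ h2)
  have cell' : ∀ a b c d : Fin 9, (a ≠ b ∧ c ≠ b ∧ d ≠ a ∧ d ≠ c ∧
      inBy 4 d a = true ∧ inBy 4 d c = true ∧ inBy 4 a b = true ∧ inBy 4 c b = true ∧
      inBy 4 d b = false ∧
      (∀ w : Fin 9, inBy 4 d w = true → inBy 4 w a = true → w = d ∨ w = c ∨ w = a) ∧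
      (∀ w : Fin 9, inBy 4 d w = true → inBy 4 w c = true → w = d ∨ w = a ∨ w = c) ∧
      (∀ w : Fin 9, inBy 4 a w = true → inBy 4 w b = true → w = a ∨ w = c ∨ w = b) ∧
      (∀ w : Fin 9, inBy 4 c w = true → inBy 4 w b = true → w = c ∨ w = a ∨ w = b)) →
      ∃ x, (x = a ∨ x = c) ∧ ∃ l1 ∈ lab d x, ∃ l2 ∈ lab x b, l2 < l1 := by
    rintro a b c d ⟨n1, n2, n3, n4, r1, r2, r3, r4, r5, b1, b2, b3, b4⟩
    exact cell hsimp n1 n2 n3 n4 (pos _ _ n3 r1) (pos _ _ n4 r2) (pos _ _ n1 r3)
      (pos _ _ n2 r4) (neg _ _ r5) (btw _ _ _ b1) (btw _ _ _ b2) (btw _ _ _ b3) (btw _ _ _ b4)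
  obtain ⟨x0, hx0, l1, hl1, m1, hm1, hlt1⟩ := cell' 0 1 2 7 
    ⟨by decide, by decide, by decide, by decide, by decide, by decide, by decide, by decide, by decide, by decide, by decide, by decide, by decide⟩
  obtain ⟨x1, hx1, l2, hl2, m2, hm2, hlt2⟩ := cell' 3 4 5 1 
    ⟨by decide, by decide, by decide, by decide, by decide, by decide, by decide, by decide, by decide, by decide, by decide, by decide, by decide⟩
  obtain ⟨x2, hx2, l3, hl3, m3, hm3, hlt3⟩ := cell' 6 7 8 4 
    ⟨by decide, by decide, by decide, by decide, by decide, by decide, by decide, by decide, by decide, by decide, by decide, by decide, by decide⟩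
  have q1 : l2 < m1 := by
    by_contra h
    refine neg x0 x1 ?_ (reach_two hm1 hl2 (by omega))
    rcases hx0 with rfl | rfl <;> rcases hx1 with rfl | rfl <;> decide
  have q2 : l3 < m2 := by
    by_contra h
    refine neg x1 x2 ?_ (reach_two hm2 hl3 (by omega))
    rcases hx1 with rfl | rfl <;> rcases hx2 with rfl | rfl <;> decide
  have q3 : l1 < m3 := by
    by_contra h
    refine neg x2 x0 ?_ (reach_two hm3 hl1 (by omega))
    rcases hx2 with rfl | rfl <;> rcases hx0 with rfl | rfl <;> decide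
  omega

lemma reach_pullback {V W : Type*} (e : V ≃ W) (lab : W → W → Finset ℕ) (u v : V) :
    Reach lab (e u) (e v) ↔ Reach (fun x y => lab (e x) (e y)) u v := by
  constructor
  · rintro ⟨k, p, t, h0, h1, h2, h3⟩
    refine ⟨k, fun i => e.symm (p i), t, by simp [h0], by simp [h1], ?_, h3⟩
    intro i hi
    simpa using h2 i hi
  · rintro ⟨k, p, t, h0, h1, h2, h3⟩
    exact ⟨k, fun i => e (p i), t, by simp [h0], by simp [h1], h2, h3⟩

end Pool.Agent.Q52.TR
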